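import Pool.Agent.Lib.MP_33b3f9_ag.M4.F.Defs

/-!
Lines in a closed subgroup that contains a lattice span a rational subspace.
-/

set_option autoImplicit false

noncomputable section

namespace M4.F

open Matrix Filter

variable {V : Type} [NormedAddCommGroup V] [NormedSpace ℝ V]

/-- The lines through zero in a subgroup. -/
def lines (H : AddSubgroup V) : Submodule ℝ V where
  carrier := {x | ∀ t : ℝ, t • x ∈ H}
  zero_mem' := fun t => by simpa using H.zero_mem
  add_mem' := fun {a b} ha hb t => by simpa [smul_add] using H.add_mem (ha t) (hb t)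
  smul_mem' := fun c x hx t => by simpa [smul_smul] using hx (t * c)

/-- If points of `H` outside `lines H` come arbitrarily close to `lines H`, normalise their
components in a complement; a limit direction is a new line. -/
theorem lines_isolated [FiniteDimensional ℝ V] {H : AddSubgroup V} (hH : IsClosed (H : Set V)) :
    ∃ ε : ℝ, 0 < ε ∧ ∀ x ∈ H, ‖x‖ < ε → x ∈ lines H := by
  by_contra hn
  push Not at hn
  choose x hx h1 h2 using fun n : ℕ => hn (1 / ((n : ℝ) + 1)) Nat.one_div_pos_of_nat
  obtain ⟨U, hU⟩ := (lines H).exists_isCompl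
  let π := U.projection (lines H) hU.symm
  have hW : ∀ v ∈ lines H, v ∈ H := fun v hv => by simpa using hv 1
  have hy : ∀ n, π (x n) ∈ H := fun n => by
    simpa using H.sub_mem (hx n) (hW _ (Submodule.sub_projection_mem hU.symm (x n)))
  have hy0 : ∀ n, 0 < ‖π (x n)‖ := fun n => norm_pos_iff.mpr fun h0 => h2 n (by
    have h3 : x n - π (x n) ∈ lines H := Submodule.sub_projection_mem hU.symm (x n)
    rwa [h0, sub_zero] at h3)
  have hx0 : Tendsto x atTop (nhds 0) := squeeze_zero_norm (fun n => (h1 n).le)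
    tendsto_one_div_add_atTop_nhds_zero_nat
  have hlim : Tendsto (fun n => ‖π (x n)‖) atTop (nhds 0) := by
    simpa using ((π.continuous_of_finiteDimensional.tendsto 0).comp hx0).norm
  have hK : IsCompact (Metric.sphere (0 : V) 1 ∩ U) := by
    have := FiniteDimensional.proper_real V
    exact (isCompact_sphere 0 1).inter_right U.closed_of_finiteDimensional
  obtain ⟨y, ⟨hy1, hyU⟩, φ, hφ, hu⟩ := hK.tendsto_subseq
    (x := fun n => ‖π (x n)‖⁻¹ • π (x n)) fun n => ⟨by
      rw [mem_sphere_zero_iff_norm, norm_smul, norm_inv, norm_norm, inv_mul_cancel₀ (hy0 n).ne'],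
      U.smul_mem _ (Submodule.projection_apply_mem hU.symm _)⟩
  have hyW : y ∈ lines H := by
    intro t
    have hc : Tendsto (fun n => (⌊t / ‖π (x n)‖⌋ : ℝ) * ‖π (x n)‖) atTop (nhds t) := by
      refine tendsto_of_tendsto_of_tendsto_of_le_of_le (g := fun n => t - ‖π (x n)‖)
        (h := fun _ => t) (by simpa using hlim.const_sub t) tendsto_const_nhds (fun n => ?_)
        fun n => (le_div_iff₀ (hy0 n)).mp (Int.floor_le _)
      have := (div_lt_iff₀ (hy0 n)).mp (Int.lt_floor_add_one (t / ‖π (x n)‖))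
      dsimp only
      linarith
    refine hH.mem_of_tendsto ((hc.comp hφ.tendsto_atTop).smul hu) (Eventually.of_forall fun n => ?_)
    simp only [Function.comp, smul_smul, mul_inv_cancel_right₀ (hy0 _).ne', Int.cast_smul_eq_zsmul]
    exact H.zsmul_mem (hy _) _
  have h0 : y = 0 := (Submodule.disjoint_def.mp hU.disjoint) y hyW hyU
  simp [h0] at hy1

/-- Dirichlet: for `x` in `lines H` the multiples `q • x` come close to the lattice. -/
theorem lines_rational {ι : Type} [Fintype ι] (b : Module.Basis ι ℝ V) {H : AddSubgroup V}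
    (hH : IsClosed (H : Set V)) (hb : ∀ i, b i ∈ H) :
    lines H ≤ Submodule.span ℝ {x | x ∈ lines H ∧ x ∈ Submodule.span ℤ (Set.range b)} := by
  have := Module.Finite.of_basis b
  have := FiniteDimensional.proper_real V
  obtain ⟨ε, hε, h1⟩ := lines_isolated hH
  have hL : ∀ v ∈ Submodule.span ℤ (Set.range b), v ∈ H := fun v hv =>
    Submodule.span_le (p := AddSubgroup.toIntSubmodule H).mpr
      (by rintro _ ⟨i, rfl⟩; exact hb i) hv
  intro w hw
  set S := Submodule.span ℝ {x | x ∈ lines H ∧ x ∈ Submodule.span ℤ (Set.range b)}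
  obtain ⟨a, -, φ, hφ, hu⟩ := tendsto_subseq_of_bounded (Metric.isBounded_closedBall
    (x := (0 : V)) (r := ∑ i, ‖b i‖)) (x := fun n : ℕ => ZSpan.fract b ((n : ℝ) • w))
    fun n => mem_closedBall_zero_iff.mpr (ZSpan.norm_fract_le b _)
  rw [← SetLike.mem_coe, ← S.closed_of_finiteDimensional.closure_eq, Metric.mem_closure_iff]
  intro δ hδ
  obtain ⟨N, hN⟩ := Metric.cauchySeq_iff'.mp hu.cauchySeq (min ε δ) (lt_min hε hδ)
  have h2 := hN (N + 1) (Nat.le_succ N)
  have hq : (1 : ℝ) ≤ (φ (N + 1) : ℝ) - φ N := by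
    have : φ N + 1 ≤ φ (N + 1) := hφ (Nat.lt_succ_self N)
    rw [le_sub_iff_add_le']
    exact_mod_cast this
  set q : ℝ := (φ (N + 1) : ℝ) - φ N with hq'
  set m : V := (ZSpan.floor b ((φ (N + 1) : ℝ) • w) : V) - ZSpan.floor b ((φ N : ℝ) • w) with hm
  have hmL : m ∈ Submodule.span ℤ (Set.range b) := sub_mem (SetLike.coe_mem _) (SetLike.coe_mem _)
  have h3 : ‖q • w - m‖ < min ε δ := by
    have e : q • w - m = ZSpan.fract b ((φ (N + 1) : ℝ) • w) - ZSpan.fract b ((φ N : ℝ) • w) := by
      rw [ZSpan.fract_apply, ZSpan.fract_apply, hq', hm, sub_smul]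
      abel
    rw [e, ← dist_eq_norm]
    exact h2
  have h4 := h1 _ (H.sub_mem (hw q) (hL m hmL)) (h3.trans_le (min_le_left _ _))
  have h5 : m ∈ lines H := by simpa using (lines H).sub_mem ((lines H).smul_mem q hw) h4
  have hq0 : 0 < q := by linarith
  refine ⟨q⁻¹ • m, S.smul_mem _ (Submodule.subset_span ⟨h5, hmL⟩), ?_⟩
  have e : w - q⁻¹ • m = q⁻¹ • (q • w - m) := by
    rw [smul_sub q⁻¹ (q • w), smul_smul, inv_mul_cancel₀ hq0.ne', one_smul]
  rw [dist_eq_norm, e, norm_smul, norm_inv, Real.norm_of_nonneg hq0.le]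
  exact (mul_le_of_le_one_left (norm_nonneg _) (inv_le_one_of_one_le₀ hq)).trans_lt
    (h3.trans_le (min_le_right _ _))

end M4.F
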