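import Pool.Agent.Lib.MP_33b3f9_ag.M4.F.Schw
import Pool.Agent.Lib.MP_33b3f9_ag.M4.F.FinA
import Pool.Agent.Lib.MP_33b3f9_ag.M4.F.FinB

/-!
A function that vanishes on a lattice and on a full line vanishes.
-/

set_option autoImplicit false

noncomputable section

namespace M4.F

open Matrix Filter

variable {κ : Type} [Fintype κ] [DecidableEq κ] {τ : Mat}

/-- The translations that keep a set. -/
def finStab {V : Type} [AddCommGroup V] (W : Set V) : AddSubgroup V where
  carrier := {h | ∀ x ∈ W, x + h ∈ W ∧ x - h ∈ W}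
  zero_mem' := fun x hx => by simpa using hx
  add_mem' := fun {a b} ha hb x hx => by
    rw [← add_assoc, ← sub_sub]
    exact ⟨(hb _ (ha x hx).1).1, (hb _ (ha x hx).2).2⟩
  neg_mem' := fun {a} ha x hx => by
    rw [← sub_eq_add_neg, sub_neg_eq_add]
    exact (ha x hx).symm

theorem fin_closed {V : Type} [NormedAddCommGroup V] {W : Set V} (hW : IsClosed W) :
    IsClosed (finStab W : Set V) := by
  have e : (finStab W : Set V) = ⋂ x ∈ W, (fun h => x + h) ⁻¹' W ∩ (fun h => x - h) ⁻¹' W := by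
    ext h
    simp only [Set.mem_iInter]
    rfl
  rw [e]
  exact isClosed_biInter fun x _ => (hW.preimage (by fun_prop)).inter (hW.preimage (by fun_prop))

theorem fin (hτ : InH τ) (he : EndX τ) {c : ℝ} {s : VR κ → ℂ} (hs : Lin τ c s)
    (G : AddSubgroup (VQ κ)) (hG : ∀ x ∈ G, s (cr x) = 0) {N : ℕ} (hN : N ≠ 0) (hz : zl κ N ≤ G)
    {v : VQ κ} (hv : ∀ j : ℕ, ((2 : ℚ) ^ j)⁻¹ • v ∈ G) (hf : Full v) : s = 0 := by
  let W : Set (VR κ) := {x | ∀ g ∈ G, s (x + cr g) = 0}
  have hW : IsClosed W := by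
    have e : W = ⋂ g ∈ G, {x | s (x + cr g) = 0} := by
      ext x
      simp only [Set.mem_iInter]
      rfl
    rw [e]
    exact isClosed_biInter fun g _ => isClosed_eq (hs.1.comp (by fun_prop)) continuous_const
  have hH := fin_closed hW
  have hGH : ∀ g ∈ G, cr g ∈ finStab W := fun g hg x hx =>
    ⟨fun g' hg' => by rw [add_assoc, ← cr_add]; exact hx _ (G.add_mem hg hg'),
      fun g' hg' => by rw [sub_add, sub_eq_add_neg, neg_sub, ← cr_sub]; exact hx _ (G.sub_mem hg' hg)⟩
  have hj : ∀ y ∈ lines (finStab W), jv τ y ∈ lines (finStab W) := by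
    intro y hy t x hx
    have key : ∀ u : ℝ, x + u • jv τ y ∈ W := fun u g hg => by
      rw [add_right_comm]
      exact hs.cplx (fun t' => by rw [add_right_comm]; exact (hy t' x hx).1 g hg) u
    refine ⟨key t, ?_⟩
    rw [sub_eq_add_neg, ← neg_smul]
    exact key _
  have hN' : (N : ℝ) ≠ 0 := Nat.cast_ne_zero.2 hN
  let b := (Pi.basis fun _ : κ => Pi.basisFun ℝ ν).unitsSMul fun _ => Units.mk0 (N : ℝ) hN'
  have hb : ∀ i, b i = cr ((N : ℚ) • zq (Pi.single i.1 (Pi.single i.2 1))) := fun i => by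
    rw [Module.Basis.unitsSMul_apply, cr_smul, cr_zq, Pi.basis_apply, Pi.basisFun_apply]
    funext k l
    by_cases hk : k = i.1
    · subst hk
      simp [zR, rz, Pi.single_apply]
    · simp [zR, rz, hk]
  obtain ⟨P, hP⟩ := exists_proj hτ he (lines (finStab W)) hj
    ((lines_rational b hH fun i => hb i ▸ hGH _ (hz (mem_zl.2 ⟨_, rfl⟩))).trans
      (Submodule.span_mono fun x hx => ⟨hx.1, by
        have h : Submodule.span ℤ (Set.range b) ≤
            (AddMonoidHom.mk' (cr (κ := κ)) cr_add).range.toIntSubmodule :=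
          Submodule.span_le.2 (Set.range_subset_iff.2 fun i => ⟨_, (hb i).symm⟩)
        obtain ⟨y, hy⟩ := h hx.2
        exact ⟨y, hy.symm⟩⟩))
  have hl : cr v ∈ lines (finStab W) := by
    intro t
    let S := (finStab W).comap (LinearMap.toSpanSingleton ℝ _ (cr v)).toAddMonoidHom
    have hS : IsClosed (S : Set ℝ) := hH.preimage (f := fun t : ℝ => t • cr v) (by fun_prop)
    have hd : Dense (S : Set ℝ) := S.dense_of_not_isolated_zero fun ε hε => by
      obtain ⟨j, hj⟩ := exists_pow_lt_of_lt_one hε (show (2 : ℝ)⁻¹ < 1 by norm_num)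
      refine ⟨(2 : ℝ)⁻¹ ^ j, ?_, by positivity, hj⟩
      have h := hGH _ (hv j)
      rw [cr_smul, Rat.cast_inv, Rat.cast_pow, Rat.cast_ofNat, ← inv_pow] at h
      exact h
    exact hS.closure_subset (hd t)
  obtain rfl : P = 1 := hf P fun i => funext fun l => by
    have h := congrFun ((hP _).1 hl i) l
    simp only [Finset.sum_apply, Pi.smul_apply, smul_eq_mul, cr] at h ⊢
    exact_mod_cast h
  funext x
  have hx : x ∈ lines (finStab W) := (hP x).2 fun i => by
    simp [Matrix.one_apply, apply_ite (Rat.cast : ℚ → ℝ)]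
  have h := (hx 1 0 fun g hg => by rw [zero_add]; exact hG g hg).1 0 G.zero_mem
  have h0 : cr (0 : VQ κ) = 0 := by
    funext i j
    simp [cr]
  rwa [h0, zero_add, add_zero, one_smul] at h

theorem full_col {M : ℚ} (hM : M ≠ 0) : Full (M • col 1) := by
  intro P h
  ext i k
  have h1 := congrFun (h i) k
  simp only [Finset.sum_apply, Pi.smul_apply, smul_eq_mul, col, AddMonoidHom.coe_mk,
    ZeroHom.coe_mk, Matrix.one_apply, Int.cast_ite, Int.cast_one, Int.cast_zero, mul_ite, mul_one,
    mul_zero, Finset.sum_ite_eq, Finset.mem_univ, if_true] at h1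
  rw [Matrix.one_apply]
  by_cases hk : k = i
  · rw [if_pos hk] at h1
    rw [if_pos hk.symm, (mul_eq_right₀ hM).1 h1]
  · rw [if_neg hk] at h1
    rw [if_neg (Ne.symm hk), (mul_eq_zero.1 h1).resolve_right hM]

end M4.F
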