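import Pool.Agent.Lib.MP_33b3f9_ag.M4.F.Van

/-!
Linear algebra of spaces of functions: minors, kernels, codimensions.
-/

set_option autoImplicit false

namespace M4.F

open Module Submodule

variable {X : Type}

theorem minb_comap {M N : Type} [AddCommGroup M] [Module ℂ M] [AddCommGroup N] [Module ℂ N]
    [Module.Finite ℂ M] [Module.Finite ℂ N] (φ : M →ₗ[ℂ] N) (W : Submodule ℂ N) :
    finrank ℂ M + finrank ℂ W ≤ finrank ℂ (W.comap φ) + finrank ℂ N := by
  have h1 := (W.mkQ ∘ₗ φ).finrank_range_add_finrank_ker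
  have h2 := (LinearMap.range (W.mkQ ∘ₗ φ)).finrank_le
  have h3 := W.finrank_quotient_add_finrank
  rw [LinearMap.ker_comp, ker_mkQ] at h1
  omega

theorem minb_inf {M : Type} [AddCommGroup M] [Module ℂ M] (V W : Submodule ℂ M) :
    finrank ℂ (W.comap V.subtype) = finrank ℂ ↥(V ⊓ W) := by
  rw [← map_comap_subtype, finrank_map_subtype_eq]

/-- The kernel of `k ↦ ∑ k j • f j` modulo `V ⊓ van S`. -/
theorem exists_ker (V : Submodule ℂ (X → ℂ)) [Module.Finite ℂ V] (S : Set X) {p : ℕ}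
    (f : Fin p → X → ℂ) (hf : ∀ j, f j ∈ V) :
    ∃ Q : Submodule ℂ (Fin p → ℂ), p + finrank ℂ ↥(V ⊓ van S) ≤ finrank ℂ Q + finrank ℂ V ∧
      ∀ k ∈ Q, ∀ x ∈ S, ∑ j, k j * f j x = 0 := by
  let φ : (Fin p → ℂ) →ₗ[ℂ] V := Fintype.linearCombination ℂ fun j => (⟨f j, hf j⟩ : V)
  refine ⟨((van S).comap V.subtype).comap φ, ?_, fun k hk x hx => ?_⟩
  · have h := minb_comap φ ((van S).comap V.subtype)
    rwa [minb_inf, finrank_fin_fun] at h
  · have h : V.subtype (φ k) x = 0 := hk x hx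
    simpa [φ, Fintype.linearCombination_apply] using h

/-- Codimensions add: induction on `P` with `Submodule.finrank_sup_add_finrank_inf_eq` inside
`V ⊓ van S`. -/
theorem codim_union (V : Submodule ℂ (X → ℂ)) [Module.Finite ℂ V] (S : Set X) {α : Type}
    (P : Finset α) (T : α → Set X) (hT : ∀ a ∈ P, S ⊆ T a) {S' : Set X}
    (hS' : ∀ x ∈ S', x ∈ S ∨ ∃ a ∈ P, x ∈ T a) :
    finrank ℂ ↥(V ⊓ van S) - finrank ℂ ↥(V ⊓ van S') ≤
      ∑ a ∈ P, (finrank ℂ ↥(V ⊓ van S) - finrank ℂ ↥(V ⊓ van (T a))) := by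
  classical
  induction P using Finset.induction_on generalizing S' with
  | empty =>
    have h : V ⊓ van S ≤ V ⊓ van S' := inf_le_inf_left V fun f hf x hx =>
      hf x ((hS' x hx).resolve_right (by simp))
    have : Module.Finite ℂ ↥(V ⊓ van S') := finiteDimensional_inf_left _ _
    have := finrank_mono h
    omega
  | insert a P ha ih =>
    rw [Finset.sum_insert ha]
    have h1 := ih (fun b hb => hT b (Finset.mem_insert_of_mem hb))
      (S' := {x | x ∈ S ∨ ∃ a ∈ P, x ∈ T a}) fun x hx => hx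
    set U : Set X := {x | x ∈ S ∨ ∃ a ∈ P, x ∈ T a}
    have i1 : Module.Finite ℂ ↥(V ⊓ van S) := finiteDimensional_inf_left _ _
    have i2 : Module.Finite ℂ ↥(V ⊓ van S') := finiteDimensional_inf_left _ _
    have i3 : Module.Finite ℂ ↥(V ⊓ van U) := finiteDimensional_inf_left _ _
    have i4 : Module.Finite ℂ ↥(V ⊓ van (T a)) := finiteDimensional_inf_left _ _
    have h2 := finrank_sup_add_finrank_inf_eq (V ⊓ van U) (V ⊓ van (T a))
    have h3 : (V ⊓ van U) ⊔ (V ⊓ van (T a)) ≤ V ⊓ van S :=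
      sup_le (inf_le_inf_left V fun f hf x hx => hf x (Or.inl hx))
        (inf_le_inf_left V fun f hf x hx => hf x (hT a (Finset.mem_insert_self a P) hx))
    have h4 : (V ⊓ van U) ⊓ (V ⊓ van (T a)) ≤ V ⊓ van S' := fun f hf => ⟨hf.1.1, fun x hx => by
      rcases hS' x hx with h | ⟨b, hb, h⟩
      · exact hf.1.2 x (Or.inl h)
      · rcases Finset.mem_insert.1 hb with rfl | hb
        · exact hf.2.2 x h
        · exact hf.1.2 x (Or.inr ⟨b, hb, h⟩)⟩
    have h5 := finrank_mono h3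
    have h6 := finrank_mono h4
    omega

/-- Evaluation at the points of `T`; its kernel lies in `V ⊓ van S`. -/
theorem finrank_le_add_card (V : Submodule ℂ (X → ℂ)) [Module.Finite ℂ V] (S : Set X)
    (T : Finset X) (h : ∀ f ∈ V, (∀ t ∈ T, f t = 0) → ∀ x ∈ S, f x = 0) :
    finrank ℂ V ≤ finrank ℂ ↥(V ⊓ van S) + T.card := by
  let φ : V →ₗ[ℂ] (T → ℂ) := LinearMap.pi fun t => LinearMap.proj t.1 ∘ₗ V.subtype
  have h1 := φ.finrank_range_add_finrank_ker
  have h2 := (LinearMap.range φ).finrank_le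
  have h3 : LinearMap.ker φ ≤ (van S).comap V.subtype := fun f hf =>
    h f f.2 fun t ht => congrFun (LinearMap.mem_ker.1 hf) ⟨t, ht⟩
  have h4 := finrank_mono h3
  rw [minb_inf] at h4
  rw [finrank_fintype_fun_eq_card, Fintype.card_coe] at h2
  omega

/-- Take `j₀` with the least dimension; `Submodule.eq_of_le_of_finrank_le`. -/
theorem exists_common (V : Submodule ℂ (X → ℂ)) [Module.Finite ℂ V] (S : ℕ → Set X)
    (hS : Monotone S) (h : ∀ j, finrank ℂ ↥(V ⊓ van (S j)) ≠ 0) :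
    ∃ f ∈ V, f ≠ 0 ∧ ∀ j, ∀ x ∈ S j, f x = 0 := by
  obtain ⟨j₀, hj⟩ := exists_minimalFor_of_wellFoundedLT (fun _ : ℕ => True)
    (fun j => finrank ℂ ↥(V ⊓ van (S j))) ⟨0, trivial⟩
  have i : ∀ j, Module.Finite ℂ ↥(V ⊓ van (S j)) := fun j => finiteDimensional_inf_left _ _
  have h0 : V ⊓ van (S j₀) ≠ ⊥ := fun e => h j₀ (by rw [e, finrank_bot])
  obtain ⟨f, hf, hf0⟩ := (Submodule.ne_bot_iff _).1 h0
  refine ⟨f, hf.1, hf0, fun j x hx => ?_⟩
  have h1 : V ⊓ van (S (max j j₀)) ≤ V ⊓ van (S j₀) :=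
    inf_le_inf_left V fun g hg y hy => hg y (hS (le_max_right j j₀) hy)
  have h2 := eq_of_le_of_finrank_le h1 (hj.2 trivial (finrank_mono h1))
  exact (h2.ge hf).2 x (hS (le_max_left j j₀) hx)

end M4.F
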