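import Pool.Agent.Lib.MP_33b3f9_ag.M4.F.Step
import Pool.Agent.Lib.MP_33b3f9_ag.M4.F.Lev
import Pool.Agent.Lib.MP_33b3f9_ag.M4.F.Fin

/-!
The integral form of the theorem of Faltings.
-/

set_option autoImplicit false

namespace M4

open Matrix Module

variable {K : IntermediateField ℚ ℂ} {τ : Mat} {r : Rep K}

theorem F.main_num (k : ℕ → ℕ) {m P : ℕ} (h0 : m ≤ k 0 + P)
    (h : ∀ j, 4 * 2 ^ j * (k j - k (j + 1)) ≤ m) {j : ℕ} (hj : k j = 0) : m ≤ 2 * P := by
  have key : ∀ j, 2 * (2 ^ j * k 0) + m ≤ 2 * (2 ^ j * k j) + 2 ^ j * m := by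
    intro j
    induction j with
    | zero => simp
    | succ j ih =>
      have h1 := h j
      have h2 : 2 ^ j * k j ≤ 2 ^ j * k (j + 1) + 2 ^ j * (k j - k (j + 1)) := by
        rw [← mul_add]
        exact Nat.mul_le_mul_left _ (by omega)
      simp only [pow_succ, mul_assoc, mul_left_comm (2 ^ j) 2] at h1 ⊢
      omega
  have h1 := key j
  rw [hj] at h1
  have h2 : 2 ^ j * (2 * k 0) ≤ 2 ^ j * m := by
    rw [mul_left_comm]
    omega
  have h3 := Nat.le_of_mul_le_mul_left h2 (by positivity)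
  omega

theorem F.main_rho {A Y : ℕ} (hA : 0 < A) (hY : 0 < Y) (j : ℕ) :
    4 * 2 ^ j * Y ≤ (2 ^ j * (A * (4 * Y))) ^ 2 / A := by
  rw [Nat.le_div_iff_mul_le hA]
  have h1 : 1 ≤ 2 ^ j * (A * (4 * Y)) := Nat.succ_le_of_lt (by positivity)
  calc 4 * 2 ^ j * Y * A = 2 ^ j * (A * (4 * Y)) * 1 := by ring
    _ ≤ 2 ^ j * (A * (4 * Y)) * (2 ^ j * (A * (4 * Y))) := Nat.mul_le_mul_left _ h1
    _ = _ := by ring

theorem F.main_pow (c : ℕ) : ∃ e : ℕ, ∀ y : ℕ, 2 ≤ y → 2 * (c * y) ^ 64 ≤ y ^ e := by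
  refine ⟨2 * c ^ 64 + 64, fun y hy => ?_⟩
  have h1 : 2 * c ^ 64 ≤ y ^ (2 * c ^ 64) :=
    (Nat.lt_two_pow_self).le.trans (Nat.pow_le_pow_left hy _)
  rw [mul_pow, ← mul_assoc, pow_add]
  exact Nat.mul_le_mul_right _ h1

/-- A section that vanishes on all lattices of the chain is zero. -/
theorem F.main_zero (hτ : InH τ) (he : EndX τ) {U : Subgroup (ℂ ≃ₐ[K] ℂ)} {N M : ℕ} (hN : N ≠ 0)
    (hM : M ≠ 0) {f : F.VR ν → ℂ} (hf : f ∈ F.HolK τ 1)
    (h : ∀ j, ∀ x ∈ F.LL r U N (2 ^ j * M), f (F.cr x) = 0) : f = 0 := by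
  obtain ⟨c, -, hc⟩ := F.lin_of_holK hτ ν
  have hmono : Monotone fun j => F.LL r U N (2 ^ j * M) := monotone_nat_of_le_succ fun j => by
    have := F.LL_le (r := r) (U := U) hN (n := 2 ^ j * M) (by positivity)
    rwa [← mul_assoc, ← pow_succ'] at this
  refine F.fin hτ he (hc 1 zero_le_one f hf) (⨆ j, F.LL r U N (2 ^ j * M)) (fun x hx => ?_) hN
    (le_iSup_of_le 0 (F.zl_LL (by positivity))) (v := (M : ℚ)⁻¹ • F.col 1) (fun j => ?_)
    (F.full_col (inv_ne_zero (by exact_mod_cast hM)))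
  · obtain ⟨j, hj⟩ := (AddSubgroup.mem_iSup_of_directed hmono.directed_le).1 hx
    exact h j x hj
  · refine AddSubgroup.mem_iSup_of_mem j ?_
    have := F.one_LL (r := r) (U := U) (N := N) (n := 2 ^ j * M)
    rw [F.qq_apply] at this
    push_cast at this
    rwa [mul_inv, mul_smul] at this

theorem fal (h : AV τ K r) (he : EndX τ) : FAL r := by
  obtain ⟨t, D, B, b⟩ := F.exists_base h
  obtain ⟨A, C, hA, hC, hs⟩ := F.step h b
  obtain ⟨e, hE⟩ := F.main_pow (A * (4 * (2 ^ 64 * (2 ^ 64 * C))))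
  refine ⟨e, fun N hN U hU => ?_⟩
  have hd : 0 < U.index := Nat.pos_of_ne_zero hU.index_ne_zero
  set y := U.index * (2 + Nat.log 2 N) with hy
  have hy2 : 2 ≤ y := by
    have := Nat.mul_le_mul (Nat.succ_le_of_lt hd) (Nat.le_add_right 2 (Nat.log 2 N))
    omega
  obtain ⟨hfin, -⟩ := F.GS_fin (t := t) h.inH hN (F.zl_le_AL (r := r) (U := U) (N := N))
  refine (F.index_le h.inH b.t0 hN).trans (le_trans ?_ (hE y hy2))
  set Y := 2 ^ 64 * (2 ^ 64 * C) * y with hY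
  have hY0 : 0 < Y := by positivity
  have hM : A * (4 * Y) ≠ 0 := by positivity
  rw [show A * (4 * (2 ^ 64 * (2 ^ 64 * C))) * y = A * (4 * Y) by rw [hY]; ring]
  by_contra hlt
  have hmono : Monotone fun j => F.cr '' (F.LL r U N (2 ^ j * (A * (4 * Y))) : Set (F.VQ ν)) :=
    monotone_nat_of_le_succ fun j => Set.image_mono (by
      have := F.LL_le (r := r) (U := U) hN (n := 2 ^ j * (A * (4 * Y))) (by positivity)
      rwa [← mul_assoc 2 (2 ^ j), ← pow_succ'] at this)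
  obtain ⟨f, hf, hf0, hz⟩ := F.exists_common (F.GS τ t (F.AL r U N)) _ hmono fun j hj => hlt <|
    F.main_num (fun j => F.kk τ t (F.AL r U N) (F.LL r U N (2 ^ j * (A * (4 * Y)))))
      (by simpa using F.GS_rank (t := t) (r := r) (U := U) h.inH hN hM) (fun j => by
        have h1 := F.level (τ := τ) (t := t) (Λ := F.AL r U N) (r := r) (U := U) (N := N)
          (n := 2 ^ j * (A * (4 * Y))) (by positivity) (hs N hN U hU _ (by positivity))
        rw [← mul_assoc 2 (2 ^ j), ← pow_succ'] at h1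
        have h2 := (Nat.mul_le_mul_right _ (F.main_rho hA hY0 j)).trans h1
        refine Nat.le_of_mul_le_mul_left (le_of_eq_of_le ?_ (h2.trans_eq ?_)) hY0
        · ring
        · rw [hY]; ring) hj
  exact hf0 (F.main_zero h.inH he hN hM (F.GS_le h.inH hf) fun j x hx => hz j _ ⟨x, hx, rfl⟩)

end M4
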