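import Mathlib

/-!
Determinants that are small on a subspace.
-/

set_option autoImplicit false

namespace M4.F

open Matrix

/-- `Matrix.det_apply`, at most `p ! ≤ p ^ p` terms. -/
theorem det_le_cols {p : ℕ} (A : Matrix (Fin p) (Fin p) ℂ) (b : Fin p → ℝ)
    (h : ∀ i j, ‖A i j‖ ≤ b j) : ‖A.det‖ ≤ (p : ℝ) ^ p * ∏ j, b j := by
  have hb : ∀ σ : Equiv.Perm (Fin p), ‖Equiv.Perm.sign σ • ∏ j, A (σ j) j‖ ≤ ∏ j, b j := fun σ => by
    have h1 : ‖Equiv.Perm.sign σ • ∏ j, A (σ j) j‖ = ‖∏ j, A (σ j) j‖ := by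
      rcases Int.units_eq_one_or (Equiv.Perm.sign σ) with h2 | h2 <;> simp [h2]
    rw [h1, norm_prod]
    exact Finset.prod_le_prod (fun _ _ => norm_nonneg _) fun j _ => h _ _
  rw [det_apply]
  refine (norm_sum_le _ _).trans ((Finset.sum_le_sum fun σ _ => hb σ).trans ?_)
  rw [Finset.sum_const, Finset.card_univ, Fintype.card_perm, Fintype.card_fin, nsmul_eq_mul]
  refine mul_le_mul_of_nonneg_right ?_ ((norm_nonneg _).trans (hb 1))
  exact_mod_cast Nat.factorial_le_pow p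

/-- A matrix of determinant of norm one with entries of norm at most one, at least `s` of whose
columns lie in `Q`: an orthonormal basis of `Q` in `EuclideanSpace ℂ (Fin p)`, extended
(`Orthonormal.exists_orthonormalBasis_extension_of_card_eq` or `..._extension`,
`OrthonormalBasis.det_to_matrix_orthonormalBasis`, `entry_norm_bound_of_unitary`). -/
theorem exists_unitary {p : ℕ} (Q : Submodule ℂ (Fin p → ℂ)) :
    ∃ (W : Matrix (Fin p) (Fin p) ℂ) (J : Finset (Fin p)), ‖W.det‖ = 1 ∧ (∀ i j, ‖W i j‖ ≤ 1) ∧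
      Module.finrank ℂ Q ≤ J.card ∧ ∀ j ∈ J, (fun i => W i j) ∈ Q := by
  classical
  let e := WithLp.linearEquiv 2 ℂ (Fin p → ℂ)
  let Q' : Submodule ℂ (EuclideanSpace ℂ (Fin p)) := Q.map e.symm.toLinearMap
  have hr : Module.finrank ℂ Q' = Module.finrank ℂ Q := e.symm.finrank_map_eq Q
  have hp : Module.finrank ℂ Q' ≤ p := (Submodule.finrank_le Q').trans (by simp)
  let b := stdOrthonormalBasis ℂ Q'
  let v : Fin p → EuclideanSpace ℂ (Fin p) := fun j =>
    if h : (j : ℕ) < Module.finrank ℂ Q' then (b ⟨j, h⟩ : EuclideanSpace ℂ (Fin p)) else 0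
  have hv : Orthonormal ℂ (Set.domRestrict {j : Fin p | (j : ℕ) < Module.finrank ℂ Q'} v) := by
    have h1 := (b.orthonormal.comp_linearIsometry Q'.subtypeₗᵢ).comp
      (fun j : {j : Fin p | (j : ℕ) < Module.finrank ℂ Q'} => (⟨j.1, j.2⟩ : Fin _))
      fun x y h => Subtype.ext (Fin.ext (Fin.mk.inj h))
    refine (congrArg (Orthonormal ℂ) (funext fun j => ?_)).mp h1
    have h2 : ((j : Fin p) : ℕ) < Module.finrank ℂ Q' := j.2
    exact (show v j = _ from dif_pos h2).symm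
  obtain ⟨c, hc⟩ := hv.exists_orthonormalBasis_extension_of_card_eq (by simp)
  have hW := (EuclideanSpace.basisFun (Fin p) ℂ).toMatrix_orthonormalBasis_mem_unitary c
  refine ⟨(EuclideanSpace.basisFun (Fin p) ℂ).toBasis.toMatrix c,
    Finset.univ.map (Fin.castLEEmb hp), ?_, entry_norm_bound_of_unitary hW, ?_, ?_⟩
  · exact (EuclideanSpace.basisFun (Fin p) ℂ).det_to_matrix_orthonormalBasis c
  · rw [Finset.card_map, Finset.card_univ, Fintype.card_fin, hr]
  · intro j hj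
    obtain ⟨k, -, rfl⟩ := Finset.mem_map.1 hj
    have h1 : c (Fin.castLEEmb hp k) = b k := (hc _ k.2).trans (dif_pos k.2)
    obtain ⟨x, hx, hx'⟩ := (b k).2
    have h2 : (fun i => (EuclideanSpace.basisFun (Fin p) ℂ).toBasis.toMatrix c i
        (Fin.castLEEmb hp k)) = x := by
      funext i
      rw [Module.Basis.toMatrix_apply, h1, ← hx']
      simp [e]
    rw [h2]
    exact hx

/-- Apply `det_le_cols` to `A * W`: the columns in `J` are at most `ε B p`, the others `B p`. -/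
theorem det_le {p s : ℕ} (A : Matrix (Fin p) (Fin p) ℂ) {B ε : ℝ} (hB : 0 ≤ B) (h0 : 0 ≤ ε)
    (h1 : ε ≤ 1) (hA : ∀ i j, ‖A i j‖ ≤ B) (Q : Submodule ℂ (Fin p → ℂ))
    (hs : s ≤ Module.finrank ℂ Q)
    (hQ : ∀ k ∈ Q, ∀ i, ‖∑ j, k j * A i j‖ ≤ B * (∑ j, ‖k j‖) * ε) :
    ‖A.det‖ ≤ ((p : ℝ) ^ 2 * B) ^ p * ε ^ s := by
  classical
  obtain ⟨W, J, hW, hW1, hJ, hJQ⟩ := exists_unitary Q
  have h2 : ∀ j, ∑ k, ‖W k j‖ ≤ p := fun j =>
    (Finset.sum_le_sum fun k _ => hW1 k j).trans (by simp)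
  have h3 := det_le_cols (A * W) (fun j => B * p * if j ∈ J then ε else 1) fun i j => by
    rw [Matrix.mul_apply]
    split_ifs with hj
    · simp only [mul_comm (A i _)]
      exact (hQ _ (hJQ j hj) i).trans
        (mul_le_mul_of_nonneg_right (mul_le_mul_of_nonneg_left (h2 j) hB) h0)
    · rw [mul_one]
      refine (norm_sum_le _ _).trans (le_trans ?_ (mul_le_mul_of_nonneg_left (h2 j) hB))
      rw [Finset.mul_sum]
      exact Finset.sum_le_sum fun k _ => by
        rw [norm_mul]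
        exact mul_le_mul_of_nonneg_right (hA i k) (norm_nonneg _)
  rw [det_mul, norm_mul, hW, mul_one, Finset.prod_mul_distrib, Finset.prod_const,
    Finset.prod_ite_mem, Finset.univ_inter, Finset.prod_const, Finset.card_univ, Fintype.card_fin,
    ← mul_assoc, ← mul_pow] at h3
  refine h3.trans ?_
  rw [show (p : ℝ) * (B * p) = (p : ℝ) ^ 2 * B by ring]
  exact mul_le_mul_of_nonneg_left (pow_le_pow_of_le_one h0 h1 (hs.trans hJ)) (by positivity)

end M4.F
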