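import Pool.Agent.Lib.MP_33b3f9_ag.M4.F.Defs

/-!
The Schwarz lemma along a line.
-/

set_option autoImplicit false

noncomputable section

namespace M4.F

open Matrix Filter

variable {κ : Type} [Fintype κ] {τ : Mat}

theorem exists_quot {ψ : ℂ → ℂ} (hψ : Differentiable ℂ ψ) (S : Finset ℂ) (hz : ∀ a ∈ S, ψ a = 0) :
    ∃ g : ℂ → ℂ, Differentiable ℂ g ∧ ∀ ζ, ψ ζ = (∏ a ∈ S, (ζ - a)) * g ζ := by
  classical
  induction S using Finset.induction_on with
  | empty => exact ⟨ψ, hψ, fun ζ => by simp⟩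
  | insert a S ha ih =>
    obtain ⟨g, hg, h⟩ := ih fun b hb => hz b (Finset.mem_insert_of_mem hb)
    have h0 : g a = 0 := by
      have := hz a (Finset.mem_insert_self a S)
      rw [h] at this
      exact (mul_eq_zero.1 this).resolve_left
        (Finset.prod_ne_zero_iff.2 fun b hb => sub_ne_zero.2 fun e => ha (e ▸ hb))
    refine ⟨dslope g a, ?_, fun ζ => ?_⟩
    · rw [← differentiableOn_univ, Complex.differentiableOn_dslope univ_mem]
      exact hg.differentiableOn
    · have := sub_smul_dslope g a ζ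
      rw [h0, sub_zero, smul_eq_mul] at this
      rw [h, Finset.prod_insert ha, ← this]
      ring

/-- Divide by `∏ (ζ - k)`, `-n < k ≤ n`, maximum principle on the circle of radius `4 n`. -/
theorem schwarz_int {ψ : ℂ → ℂ} (hψ : Differentiable ℂ ψ) {B η : ℝ}
    (hb : ∀ ζ, ‖ψ ζ‖ ≤ B * Real.exp (η * ‖ζ‖ ^ 2)) (hz : ∀ k : ℤ, ψ k = 0) {n : ℕ} (hn0 : 0 < n)
    (hn : 16 * η * n ≤ 1) {t : ℝ} (h0 : 0 ≤ t) (h1 : t ≤ 1) : ‖ψ t‖ ≤ B * Real.exp (2 - n) := by
  classical
  have hB : 0 ≤ B := by simpa using (norm_nonneg _).trans (hb 0)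
  set S : Finset ℂ := (Finset.Ioc (-(n : ℤ)) n).image Int.cast with hS
  have hc : S.card = 2 * n := by
    rw [hS, Finset.card_image_of_injective _ Int.cast_injective, Int.card_Ioc]
    omega
  obtain ⟨g, hg, h⟩ := exists_quot hψ S fun a ha => by
    obtain ⟨k, _, rfl⟩ := Finset.mem_image.1 ha
    exact hz k
  have hN : (1 : ℝ) ≤ n := by exact_mod_cast hn0
  have hp : (0 : ℝ) < (3 * n) ^ (2 * n) := by positivity
  have h2 : ‖g t‖ ≤ B * Real.exp n / (3 * n) ^ (2 * n) := by
    refine Complex.norm_le_of_forall_mem_frontier_norm_le (U := Metric.ball 0 (4 * n))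
      Metric.isBounded_ball hg.diffContOnCl (fun z hz => ?_) (subset_closure ?_)
    · rw [frontier_ball _ (by positivity), mem_sphere_zero_iff_norm] at hz
      have h3 := hb z
      rw [h, norm_mul, norm_prod, hz] at h3
      have h4 : (3 * n : ℝ) ^ (2 * n) ≤ ∏ a ∈ S, ‖z - a‖ := by
        rw [← hc, ← Finset.prod_const]
        refine Finset.prod_le_prod (fun _ _ => by positivity) fun a ha => ?_
        obtain ⟨k, hk, rfl⟩ := Finset.mem_image.1 ha
        have h5 := norm_sub_norm_le z k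
        rw [Finset.mem_Ioc] at hk
        have h6 : |(k : ℝ)| ≤ n := by exact_mod_cast abs_le.2 ⟨hk.1.le, hk.2⟩
        rw [hz, Complex.norm_intCast] at h5
        linarith
      rw [le_div_iff₀ hp, mul_comm]
      refine ((mul_le_mul_of_nonneg_right h4 (norm_nonneg _)).trans h3).trans
        (mul_le_mul_of_nonneg_left (Real.exp_le_exp.2 ?_) hB)
      nlinarith
    · rw [mem_ball_zero_iff, Complex.norm_real, Real.norm_of_nonneg h0]
      linarith
  have h3 : ∏ a ∈ S, ‖(t : ℂ) - a‖ ≤ (n : ℝ) ^ (2 * n) := by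
    rw [← hc, ← Finset.prod_const]
    refine Finset.prod_le_prod (fun _ _ => norm_nonneg _) fun a ha => ?_
    obtain ⟨k, hk, rfl⟩ := Finset.mem_image.1 ha
    rw [Finset.mem_Ioc] at hk
    have h5 : (-(n : ℝ)) + 1 ≤ k := by exact_mod_cast hk.1
    have h6 : (k : ℝ) ≤ n := by exact_mod_cast hk.2
    rw [← Complex.ofReal_intCast, ← Complex.ofReal_sub, Complex.norm_real, Real.norm_eq_abs, abs_le]
    constructor <;> linarith
  rw [h, norm_mul, norm_prod]
  refine (mul_le_mul h3 h2 (norm_nonneg _) (by positivity)).trans ?_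
  have h4 : Real.exp (2 * n) ≤ 3 ^ (2 * n) := by
    have : Real.exp (2 * n) = Real.exp 1 ^ (2 * n) := by
      rw [← Real.exp_nat_mul]
      simp
    rw [this]
    exact pow_le_pow_left₀ (Real.exp_pos 1).le (Real.exp_one_lt_d9.le.trans (by norm_num)) _
  rw [mul_pow, mul_div_assoc', mul_comm ((3 : ℝ) ^ _), mul_div_mul_left _ _ (by positivity),
    div_le_iff₀ (by positivity), mul_assoc]
  refine mul_le_mul_of_nonneg_left (le_trans ?_
    (mul_le_mul_of_nonneg_left h4 (Real.exp_pos _).le)) hB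
  rw [← Real.exp_add, Real.exp_le_exp]
  linarith

theorem Lin.small {c B : ℝ} {s : VR κ → ℂ} (hs : Lin τ c s) (hb : ∀ x, ‖s x‖ ≤ B) {x v : VR κ}
    (hz : ∀ k : ℤ, s (x + (k : ℝ) • v) = 0) {n : ℕ} (hn : 16 * c * ‖v‖ ^ 2 * n ≤ 1) {t : ℝ}
    (h0 : 0 ≤ t) (h1 : t ≤ 1) : ‖s (x + t • v)‖ ≤ B * Real.exp (2 - n) := by
  rcases Nat.eq_zero_or_pos n with rfl | hn0
  · exact (hb _).trans (le_mul_of_one_le_right ((norm_nonneg _).trans (hb x))
      (Real.one_le_exp (by simp)))
  obtain ⟨ψ, η, hψ, hη, hc, h⟩ := hs.2 x v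
  have h2 := schwarz_int hψ (B := B) (fun ζ => by
    rw [h]
    exact mul_le_mul_of_nonneg_right (hb _) (Real.exp_pos _).le) (fun k => by
    rw [← norm_eq_zero, h]
    simp [hz k]) hn0
    (le_trans (mul_le_mul_of_nonneg_right (by linarith) (Nat.cast_nonneg n)) hn) h0 h1
  rw [h, Complex.ofReal_re, Complex.ofReal_im, zero_smul, add_zero] at h2
  exact (le_mul_of_one_le_right (norm_nonneg _) (Real.one_le_exp (by positivity))).trans h2

/-- The identity theorem on a line. -/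
theorem Lin.cplx {c : ℝ} {s : VR κ → ℂ} (hs : Lin τ c s) {x v : VR κ}
    (hz : ∀ t : ℝ, s (x + t • v) = 0) (t : ℝ) : s (x + t • jv τ v) = 0 := by
  obtain ⟨ψ, η, hψ, -, -, h⟩ := hs.2 x v
  have h1 := entire_eq_zero_of_real (ι := Unit) (F := fun z => ψ (z ())) (by fun_prop) 0 fun b => by
    rw [← norm_eq_zero, h]
    simp [hz (b ())]
  have h2 := h (t * Complex.I)
  rw [show ψ (t * Complex.I) = 0 from congrFun h1 fun _ => t * Complex.I] at h2
  simpa using h2

end M4.F
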