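import Pool.Agent.Lib.MP_33b3f9_ag.M4.F.Lat
import Pool.Agent.Lib.MP_33b3f9_ag.M4.F.Det

/-!
Arithmetic of minors.
-/

set_option autoImplicit false

namespace M4.F

open Matrix

variable {K : IntermediateField ℚ ℂ} {τ : Mat} {r : Rep K} {U : Subgroup (ℂ ≃ₐ[K] ℂ)} {N n : ℕ}
  {t : ℂ} {D : ℕ} {B : ℝ}

theorem cj_card : Fintype.card ν = 8 := by simp

/-- `Matrix.det_smul`, `IsIntegral.det`, `Base.tw_int`. -/
theorem minor_int (b : Base τ r t D B) {p : ℕ} (c x : Fin p → VQ ν) :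
    IsIntegral ℤ (((D : ℂ) ^ 8) ^ p * minor τ t c x) := by
  have e := det_smul (Matrix.of fun i j => Tw τ t (cr (c j)) (cr (x i))) ((D : ℂ) ^ 8)
  rw [Fintype.card_fin] at e
  rw [minor, ← e]
  exact IsIntegral.det fun i j => cj_card ▸ b.tw_int (c j) (x i)

/-- `RingEquiv.map_det` or `RingHom.map_det`, `det_le_cols`, `Base.tw_conj`. -/
theorem minor_conj (b : Base τ r t D B) (φ : ℂ ≃+* ℂ) {p : ℕ} (c x : Fin p → VQ ν) :
    ‖φ (minor τ t c x)‖ ≤ ((p : ℝ) ^ 2 * B ^ 8) ^ p := by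
  have h0 : 0 ≤ B ^ 8 := pow_nonneg (zero_le_one.trans b.b1) 8
  rw [minor, RingEquiv.map_det]
  refine (det_le_cols _ (fun _ => B ^ 8) fun i j => cj_card ▸ b.tw_conj φ (c j) (x i)).trans ?_
  rw [Finset.prod_const, Finset.card_univ, Fintype.card_fin, ← mul_pow]
  refine pow_le_pow_left₀ (by positivity) (mul_le_mul_of_nonneg_right ?_ h0) p
  exact_mod_cast Nat.le_self_pow two_ne_zero p

/-- `Base.tw_gal`, `Filter.eventually_all`. -/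
theorem minor_gal (h : AV τ K r) (b : Base τ r t D B) (σ : ℂ ≃ₐ[K] ℂ) {p : ℕ}
    (c x : Fin p → VQ ν) :
    ∀ᶠ R in lf r σ, σ (minor τ t c x) = minor τ t (fun j => mv R (c j)) fun i => mv R (x i) := by
  filter_upwards [Filter.eventually_all.2 fun i => Filter.eventually_all.2 fun j =>
    b.tw_gal h σ (c j) (x i)] with R hR
  rw [minor, AlgEquiv.map_det]
  exact congrArg det (Matrix.ext hR)

/-- The conjugates by the coset `H σ⁻¹`. Take `R'` in `lf r (σ' * σ⁻¹)` with `minor_gal`,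
`dual_stab` for all columns and `ev_cong`; `R' * R` is a lift of `σ'` (`cong_mul`), so
`mv R' (s + qq (2 * n) R) = (mv R' s + l) + qq (2 * n) 1` with `l ∈ LL r U N n`. -/
theorem minor_move (h : AV τ K r) (b : Base τ r t D B) (hN : N ≠ 0) (hn : n ≠ 0)
    {S : Set (VQ ν)} (hS : Good r U N n S) {σ σ' : ℂ ≃ₐ[K] ℂ} (hσ : σ ∈ U) (hσ' : σ' ∈ U) {R : MZ}
    (hR : Cong r σ (2 * n * N) R)
    (h' : ∀ R', Cong r σ' (2 * n * N) R' → qq (2 * n) R' - qq (2 * n) 1 ∈ LL r U N n) {p : ℕ}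
    {c x : Fin p → VQ ν} (hc : ∀ j, c j ∈ dual (AL r U N)) (hx : ∀ i, x i ∈ ext S (qq (2 * n) R)) :
    ∃ c' x' : Fin p → VQ ν, (∀ j, c' j ∈ dual (AL r U N)) ∧ (∀ i, x' i ∈ ext S (qq (2 * n) 1)) ∧
      σ' (σ⁻¹ (minor τ t c x)) = minor τ t c' x' := by
  have hρ := U.mul_mem hσ' (U.inv_mem hσ)
  obtain ⟨R', h1, h2, h3⟩ := ((minor_gal h b (σ' * σ⁻¹) c x).and
    ((Filter.eventually_all.2 fun j => dual_stab h hN _ hρ _ (hc j)).and
      (ev_cong r _ (mul_ne_zero (mul_ne_zero two_ne_zero hn) hN)))).exists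
  refine ⟨_, _, h2, fun i => ?_, h1⟩
  rcases hx i with h4 | ⟨s, h4, e⟩
  · exact Or.inl (hS.stab _ hρ R' h3 _ h4)
  · have h5 := cong_mul h3 hR
    rw [inv_mul_cancel_right] at h5
    refine Or.inr ⟨_, hS.inv _ (hS.stab _ hρ R' h3 s h4) _ (h' _ h5), ?_⟩
    rw [e, mv_add, mv_qq, add_assoc, sub_add_cancel]

/-- `p ≤ m ≤ N ^ 64 < 2 ^ (64 L)` (`Nat.lt_pow_succ_log_self`), `Z ≤ 2 ^ e`. -/
theorem house_le (Z : ℝ) (hZ : 0 ≤ Z) : ∃ e : ℕ, ∀ N m p : ℕ, p ≤ m → m ≤ N ^ 64 →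
    ((p : ℝ) ^ 2 * Z) ^ p ≤ 2 ^ (e * (2 + Nat.log 2 N) * m) := by
  obtain ⟨e, he⟩ := pow_unbounded_of_one_lt Z (one_lt_two (α := ℝ))
  refine ⟨128 + e, fun N m p hp hm => ?_⟩
  have h1 : p ≤ (2 ^ (Nat.log 2 N + 1)) ^ 64 :=
    (hp.trans hm).trans (Nat.pow_le_pow_left (Nat.lt_pow_succ_log_self one_lt_two N).le 64)
  have h2 : (p : ℝ) ≤ (2 ^ (Nat.log 2 N + 1)) ^ 64 := by exact_mod_cast h1
  have h3 : (p : ℝ) ^ 2 * Z ≤ 2 ^ ((128 + e) * (2 + Nat.log 2 N)) := by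
    refine (mul_le_mul (pow_le_pow_left₀ p.cast_nonneg h2 2) he.le hZ (by positivity)).trans ?_
    rw [← pow_mul, ← pow_mul, ← pow_add]
    exact pow_le_pow_right₀ one_le_two (by nlinarith [Nat.zero_le (e * Nat.log 2 N)])
  rw [pow_mul]
  exact (pow_le_pow_left₀ (by positivity) h3 p).trans
    (pow_le_pow_right₀ (one_le_pow₀ one_le_two) hp)

end M4.F
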