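import Mathlib

/-!
Representatives of a lattice modulo `k`.
-/

set_option autoImplicit false

namespace M4.F

/-- `A.toIntSubmodule` is free of rank `d ≤ finrank M`; with a basis `b` take the image of
`(Fin d → Fin k)` under `e ↦ ∑ i, e i • b i`; division with remainder of the coordinates. -/
theorem cov {M : Type} [AddCommGroup M] [Module.Free ℤ M] [Module.Finite ℤ M] (A : AddSubgroup M)
    {k : ℕ} (hk : k ≠ 0) :
    ∃ T : Finset M, T.card ≤ k ^ Module.finrank ℤ M ∧ (∀ t ∈ T, t ∈ A) ∧
      ∀ x ∈ A, ∃ t ∈ T, ∃ y ∈ A, x = t + k • y := by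
  classical
  let b := Module.Free.chooseBasis ℤ A.toIntSubmodule
  have hd : Fintype.card (Module.Free.ChooseBasisIndex ℤ A.toIntSubmodule) ≤ Module.finrank ℤ M :=
    (Module.finrank_eq_card_basis b).symm.le.trans (Submodule.finrank_le _)
  have hk' : (0 : ℤ) < k := by omega
  refine ⟨Finset.univ.image fun e : _ → Fin k => ((∑ i, ((e i : ℕ) : ℤ) • b i : A.toIntSubmodule) : M),
    Finset.card_image_le.trans ?_, fun t ht => ?_, fun x hx => ?_⟩
  · rw [Finset.card_univ, Fintype.card_fun, Fintype.card_fin]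
    exact Nat.pow_le_pow_right (Nat.pos_of_ne_zero hk) hd
  · obtain ⟨e, -, rfl⟩ := Finset.mem_image.1 ht
    exact Subtype.prop _
  · let c := b.repr ⟨x, hx⟩
    refine ⟨_, Finset.mem_image_of_mem _ (Finset.mem_univ fun i => ⟨(c i % k).toNat, ?_⟩),
      ((∑ i, (c i / k) • b i : A.toIntSubmodule) : M), Subtype.prop _, ?_⟩
    · have := Int.emod_lt_of_pos (c i) hk'
      have := Int.emod_nonneg (c i) hk'.ne'
      omega
    · have e : (⟨x, hx⟩ : A.toIntSubmodule) = ∑ i, c i • b i := (b.sum_repr _).symm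
      refine (congrArg Subtype.val e).trans ?_
      rw [← AddSubmonoidClass.coe_nsmul, ← Submodule.coe_add, Finset.smul_sum,
        ← Finset.sum_add_distrib]
      refine congrArg _ (Finset.sum_congr rfl fun i _ => ?_)
      rw [← natCast_zsmul, smul_smul, ← add_smul, Int.toNat_of_nonneg (Int.emod_nonneg _ hk'.ne'),
        Int.emod_add_mul_ediv]

/-- A map to a finite set whose fibres lie in left cosets bounds the index: the map
`T → G ⧸ H` that chooses a preimage is onto (`Nat.card_le_card_of_surjective`). -/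
theorem index_le_of_map {G α : Type} [Group G] (H : Subgroup G) (T : Finset α) (cl : G → α)
    (hT : ∀ g, cl g ∈ T) (h : ∀ g g', cl g = cl g' → g⁻¹ * g' ∈ H) :
    H.FiniteIndex ∧ H.index ≤ T.card := by
  classical
  let f : T → G ⧸ H := fun t => if e : ∃ g, cl g = t then (e.choose : G ⧸ H) else (1 : G)
  have hf : Function.Surjective f := fun q => by
    obtain ⟨g, rfl⟩ := QuotientGroup.mk_surjective q
    have e : ∃ g', cl g' = cl g := ⟨g, rfl⟩
    exact ⟨⟨cl g, hT g⟩, (dif_pos e).trans (QuotientGroup.eq.2 (h _ _ e.choose_spec))⟩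
  have : Finite (G ⧸ H) := Finite.of_surjective f hf
  refine ⟨Subgroup.finiteIndex_of_finite_quotient, ?_⟩
  rw [Subgroup.index, ← Nat.card_eq_finsetCard]
  exact Nat.card_le_card_of_surjective f hf

end M4.F
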