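import Pool.Agent.Lib.MP_33b3f9_ag.M4.P.If
import Pool.Agent.Lib.MP_33b3f9_ag.M4.KzFinP
import Pool.Agent.Lib.MP_33b3f9_ag.M4.ThExt
import Pool.Agent.Lib.MP_33b3f9_ag.M4.ThIrr

/-!
Integral Faltings bound: definitions.
-/

set_option autoImplicit false

noncomputable section

namespace M4.F

open Matrix Filter

variable {κ : Type} {K : IntermediateField ℚ ℂ}

/-- Tuples of real vectors. -/
abbrev VR (κ : Type) : Type := κ → ν → ℝ

/-- Tuples of rational vectors. -/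
abbrev VQ (κ : Type) : Type := κ → ν → ℚ

/-- Rational tuples as real tuples. -/
def cr (x : VQ κ) : VR κ := fun i j => (x i j : ℝ)

/-- Integral tuples as rational tuples. -/
def zq (n : κ → ν → ℤ) : VQ κ := fun i j => (n i j : ℚ)

/-- Integral tuples as real tuples. -/
def zR (n : κ → ν → ℤ) : VR κ := fun i => rz (n i)

/-- An integral matrix acts on all members of a tuple. -/
def mv (R : MZ) (x : VQ κ) : VQ κ := fun i => R.map (Int.cast : ℤ → ℚ) *ᵥ x i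

/-- The complex structure on tuples. -/
def jv (τ : Mat) (v : VR κ) : VR κ := fun i => cst τ *ᵥ v i

/-- The lattice of the tuples that are integral and divisible by `N`. -/
def zl (κ : Type) (N : ℕ) : AddSubgroup (VQ κ) where
  carrier := {x | ∀ i j, ∃ n : ℤ, x i j = N * n}
  zero_mem' := fun _ _ => ⟨0, by simp⟩
  add_mem' := fun {a b} ha hb i j => by
    obtain ⟨n, hn⟩ := ha i j
    obtain ⟨m, hm⟩ := hb i j
    exact ⟨n + m, by simp [hn, hm, mul_add]⟩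
  neg_mem' := fun {a} ha i j => by
    obtain ⟨n, hn⟩ := ha i j
    exact ⟨-n, by simp [hn]⟩

/-- The points `x` with `M x` in `Λ`. -/
def dv {P : Type} [AddCommGroup P] (M : ℕ) (Λ : AddSubgroup P) : AddSubgroup P :=
  Λ.comap (nsmulAddMonoidHom M)

theorem mem_dv {P : Type} [AddCommGroup P] {M : ℕ} {Λ : AddSubgroup P} {x : P} :
    x ∈ dv M Λ ↔ M • x ∈ Λ := Iff.rfl

theorem cong_of_dvd {r : Rep K} {σ : ℂ ≃ₐ[K] ℂ} {M N : ℕ} (h : M ∣ N) {R : MZ}
    (hR : Cong r σ N R) : Cong r σ M R := fun l _ i j =>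
  (Nat.cast_dvd_cast h).trans (hR l i j)

/-- Integral lifts of `r σ` of sufficiently divisible level. -/
def lf (r : Rep K) (σ : ℂ ≃ₐ[K] ℂ) : Filter MZ where
  sets := {S | ∃ M : ℕ, M ≠ 0 ∧ ∀ R, Cong r σ M R → R ∈ S}
  univ_sets := ⟨1, one_ne_zero, fun _ _ => trivial⟩
  sets_of_superset := fun ⟨M, hM, h⟩ hS => ⟨M, hM, fun R hR => hS (h R hR)⟩
  inter_sets := fun ⟨M, hM, h⟩ ⟨N, hN, h'⟩ => ⟨M * N, mul_ne_zero hM hN, fun R hR =>
    ⟨h R (cong_of_dvd (dvd_mul_right M N) hR), h' R (cong_of_dvd (dvd_mul_left N M) hR)⟩⟩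

theorem ev_lf {r : Rep K} {σ : ℂ ≃ₐ[K] ℂ} {p : MZ → Prop} :
    (∀ᶠ R in lf r σ, p R) ↔ ∃ M : ℕ, M ≠ 0 ∧ ∀ R, Cong r σ M R → p R := Iff.rfl

theorem ev_cong (r : Rep K) (σ : ℂ ≃ₐ[K] ℂ) {M : ℕ} (hM : M ≠ 0) :
    ∀ᶠ R in lf r σ, Cong r σ M R := ⟨M, hM, fun _ h => h⟩

instance lf_neBot (r : Rep K) (σ : ℂ ≃ₐ[K] ℂ) : (lf r σ).NeBot :=
  ⟨fun h => by
    obtain ⟨M, hM, h1⟩ : (∅ : Set MZ) ∈ lf r σ := by rw [h]; exact mem_bot
    obtain ⟨R, hR⟩ := Kz.exists_cong r σ hM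
    exact h1 R hR⟩

/-- `Λ` is stable under `U`. -/
def Stab (r : Rep K) (U : Subgroup (ℂ ≃ₐ[K] ℂ)) (Λ : AddSubgroup (VQ κ)) : Prop :=
  ∀ σ ∈ U, ∀ x ∈ Λ, ∀ᶠ R in lf r σ, mv R x ∈ Λ

/-- Functions with equivariant algebraic values of denominator `D` and size `B`. -/
structure Ar (r : Rep K) (U : Subgroup (ℂ ≃ₐ[K] ℂ)) (D : ℕ) (B : ℝ) (s : VR κ → ℂ) : Prop where
  int : ∀ x : VQ κ, IsIntegral ℤ ((D : ℂ) * s (cr x))
  conj : ∀ (φ : ℂ ≃+* ℂ) (x : VQ κ), ‖φ (s (cr x))‖ ≤ B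
  bd : ∀ x : VR κ, ‖s x‖ ≤ B
  gal : ∀ σ ∈ U, ∀ x : VQ κ, ∀ᶠ R in lf r σ, σ (s (cr x)) = s (cr (mv R x))

/-- Along every complex line the size of `s` is that of an entire function. -/
def Lin (τ : Mat) [Fintype κ] (c : ℝ) (s : VR κ → ℂ) : Prop :=
  Continuous s ∧ ∀ x v : VR κ, ∃ (ψ : ℂ → ℂ) (η : ℝ), Differentiable ℂ ψ ∧ 0 ≤ η ∧
    η ≤ c * ‖v‖ ^ 2 ∧
    ∀ ζ : ℂ, ‖ψ ζ‖ = ‖s (x + ζ.re • v + ζ.im • jv τ v)‖ * Real.exp (η * ‖ζ‖ ^ 2)

variable [Fintype κ]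

/-- Holomorphic functions of level `e` on tuples. -/
def HolK (τ : Mat) (e : ℝ) : Submodule ℂ (VR κ → ℂ) where
  carrier := {f | ∃ G : (κ → Fin 4 → ℂ) → ℂ, Differentiable ℂ G ∧
    ∀ x, f x = ee (e * (∑ i, fa (x i) ⬝ᵥ per τ (x i)) / 2) * G fun i => per τ (x i)}
  zero_mem' := ⟨0, differentiable_const 0, fun x => by simp⟩
  add_mem' := by
    rintro f g ⟨F, hF, hf⟩ ⟨G, hG, hg⟩
    exact ⟨F + G, hF.add hG, fun x => by simp [hf, hg, mul_add]⟩
  smul_mem' := by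
    rintro c f ⟨F, hF, hf⟩
    exact ⟨c • F, hF.const_smul c, fun x => by simp [hf, mul_left_comm]⟩

/-- The members of `v` satisfy no rational linear relation. -/
def Full [DecidableEq κ] (v : VQ κ) : Prop :=
  ∀ P : Matrix κ κ ℚ, (∀ i, ∑ j, P i j • v j = v i) → P = 1

/-- The form on tuples. -/
def EK {R : Type} [CommRing R] (x y : κ → ν → R) : R := ∑ i, Kz.Ef (x i) (y i)

/-- A normalised coordinate at a rational combination of the members. -/
def bas (τ : Mat) (t : ℂ) (k : ν → ℤ) (z : κ → ℚ) (x : VR κ) : ℂ :=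
  XX τ k (∑ i, (z i : ℝ) • x i) / t

/-- The constants of the abelian variety. -/
structure Base (τ : Mat) (r : Rep K) (t : ℂ) (D : ℕ) (B : ℝ) : Prop where
  t0 : t ≠ 0
  d0 : D ≠ 0
  b1 : 1 ≤ B
  ar : ∀ (κ : Type) [Fintype κ] (k : ν → ℤ) (z : κ → ℚ), Ar r ⊤ D B (bas τ t k z)

/-- The columns of an integral matrix. -/
def col : MZ →+ VQ ν where
  toFun R := fun i j => (R j i : ℚ)
  map_zero' := by funext i j; simp
  map_add' := fun R S => by funext i j; simp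

/-- The span of the lifts of level `N`. -/
def AA (r : Rep K) (U : Subgroup (ℂ ≃ₐ[K] ℂ)) (N : ℕ) : AddSubgroup MZ :=
  AddSubgroup.closure {R : MZ | ∃ σ ∈ U, Cong r σ N R}

/-- The same as a lattice of tuples. -/
def AL (r : Rep K) (U : Subgroup (ℂ ≃ₐ[K] ℂ)) (N : ℕ) : AddSubgroup (VQ ν) := (AA r U N).map col

/-- The dual of a lattice. -/
def dual (Λ : AddSubgroup (VQ κ)) : AddSubgroup (VQ κ) where
  carrier := {c | ∀ y ∈ Λ, ∃ n : ℤ, EK c y = n}
  zero_mem' := fun y _ => ⟨0, by simp [EK]⟩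
  add_mem' := fun {a b} ha hb y hy => by
    obtain ⟨n, hn⟩ := ha y hy
    obtain ⟨m, hm⟩ := hb y hy
    refine ⟨n + m, ?_⟩
    rw [Int.cast_add, ← hn, ← hm, EK, EK, EK, ← Finset.sum_add_distrib]
    exact Finset.sum_congr rfl fun i _ => Kz.Ef_add_left _ _ _
  neg_mem' := fun {a} ha y hy => by
    obtain ⟨n, hn⟩ := ha y hy
    refine ⟨-n, ?_⟩
    rw [Int.cast_neg, ← hn, EK, EK, ← Finset.sum_neg_distrib]
    exact Finset.sum_congr rfl fun i _ => Kz.Ef_neg_left _ _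

/-- The level one section with twist `c`. -/
def Tw (τ : Mat) (t : ℂ) (c x : VR κ) : ℂ := ∏ i, U 1 (c i) (Th τ) (x i) / t

/-! ### Elementary facts -/

omit [Fintype κ] in
theorem cr_add (x y : VQ κ) : cr (x + y) = cr x + cr y := by funext i j; simp [cr]

omit [Fintype κ] in
theorem cr_sub (x y : VQ κ) : cr (x - y) = cr x - cr y := by funext i j; simp [cr]

omit [Fintype κ] in
theorem cr_smul (q : ℚ) (x : VQ κ) : cr (q • x) = (q : ℝ) • cr x := by funext i j; simp [cr]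

omit [Fintype κ] in
theorem cr_zq (n : κ → ν → ℤ) : cr (zq n) = zR n := by funext i j; simp [cr, zq, zR, rz]

omit [Fintype κ] in
theorem mem_zl {N : ℕ} {x : VQ κ} : x ∈ zl κ N ↔ ∃ n : κ → ν → ℤ, x = (N : ℚ) • zq n := by
  constructor
  · intro h
    choose n hn using h
    exact ⟨n, by funext i j; simp [zq, hn]⟩
  · rintro ⟨n, rfl⟩ i j
    exact ⟨n i j, by simp [zq]⟩

omit [Fintype κ] in
theorem mem_zl_one {x : VQ κ} : x ∈ zl κ 1 ↔ ∃ n : κ → ν → ℤ, x = zq n := by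
  simp [mem_zl]

omit [Fintype κ] in
theorem mv_add (R : MZ) (x y : VQ κ) : mv R (x + y) = mv R x + mv R y := by
  funext i; simp [mv, mulVec_add]

omit [Fintype κ] in
theorem mv_smul (R : MZ) (q : ℚ) (x : VQ κ) : mv R (q • x) = q • mv R x := by
  funext i; simp [mv, mulVec_smul]

omit [Fintype κ] in
theorem mv_mul (R S : MZ) (x : VQ κ) : mv (R * S) x = mv R (mv S x) := by
  funext i
  simp only [mv, mulVec_mulVec]
  exact congrArg (· *ᵥ x i) (Matrix.map_mul (f := Int.castRingHom ℚ))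

omit [Fintype κ] in
theorem mv_zq (R : MZ) (n : κ → ν → ℤ) : mv R (zq n) = zq fun i => R *ᵥ n i := by
  funext i j; simp [mv, zq, mulVec, dotProduct]

theorem mv_col (R S : MZ) : mv R (col S) = col (R * S) := by
  funext i j; simp [mv, col, mulVec, dotProduct, Matrix.mul_apply]

theorem exists_den (x : VQ κ) : ∃ (M : ℕ) (n : κ → ν → ℤ), M ≠ 0 ∧ (M : ℚ) • x = zq n := by
  classical
  refine ⟨∏ i, ∏ j, (x i j).den, fun i j => ((∏ i, ∏ j, (x i j).den) / (x i j).den : ℕ) * (x i j).num,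
    Finset.prod_ne_zero_iff.2 fun i _ => Finset.prod_ne_zero_iff.2 fun j _ => (x i j).den_nz, ?_⟩
  funext i j
  obtain ⟨c, hc⟩ : (x i j).den ∣ ∏ i, ∏ j, (x i j).den :=
    (Finset.dvd_prod_of_mem (fun j => (x i j).den) (Finset.mem_univ j)).trans
      (Finset.dvd_prod_of_mem (fun i => ∏ j, (x i j).den) (Finset.mem_univ i))
  simp only [zq, Pi.smul_apply, smul_eq_mul]
  rw [hc, Nat.mul_div_cancel_left _ (x i j).pos]
  push_cast
  rw [mul_comm ((x i j).den : ℚ), mul_assoc, Rat.den_mul_eq_num]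

theorem cong_mul {r : Rep K} {σ σ' : ℂ ≃ₐ[K] ℂ} {N : ℕ} {R R' : MZ} (h : Cong r σ N R)
    (h' : Cong r σ' N R') : Cong r (σ * σ') N (R * R') := fun l _ i j => by
  rw [map_mul, Units.val_mul, Matrix.mul_apply, Matrix.mul_apply, Int.cast_sum,
    ← Finset.sum_sub_distrib]
  refine Finset.dvd_sum fun k _ => ?_
  have := dvd_add ((h l i k).mul_right ((r l σ' : Matrix ν ν ℤ_[l]) k j))
    ((h' l k j).mul_left (R i k : ℤ_[l]))
  push_cast
  exact this.trans (dvd_of_eq (by ring))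

/-- Two lifts of level `N` are congruent. -/
theorem cong_sub {r : Rep K} {σ : ℂ ≃ₐ[K] ℂ} {N : ℕ} (hN : N ≠ 0) {R R' : MZ} (h : Cong r σ N R)
    (h' : Cong r σ N R') : ∃ S : MZ, R = R' + (N : ℤ) • S := by
  have : ∀ i j, (N : ℤ) ∣ R i j - R' i j := fun i j => Kz.dvd_of_padic hN fun l _ => by
    have := dvd_sub (h' l i j) (h l i j)
    push_cast
    exact this.trans (dvd_of_eq (by ring))
  choose S hS using this
  exact ⟨Matrix.of S, by ext i j; simp [← hS]⟩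

theorem cong_one (r : Rep K) (N : ℕ) (S : MZ) : Cong r 1 N (1 + (N : ℤ) • S) := fun l _ i j => by
  rw [map_one, Units.val_one]
  refine ⟨-(S i j : ℤ_[l]), ?_⟩
  rw [Matrix.add_apply, Matrix.smul_apply, smul_eq_mul]
  simp [Matrix.one_apply]

end M4.F
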