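import Mathlib

/-!
Functions that vanish on a set.
-/

set_option autoImplicit false

namespace M4.F

/-- The functions that vanish on `S`. -/
def van {X : Type} (S : Set X) : Submodule ℂ (X → ℂ) where
  carrier := {f | ∀ x ∈ S, f x = 0}
  zero_mem' := fun _ _ => rfl
  add_mem' := fun {f g} hf hg x hx => by
    rw [Pi.add_apply, hf x hx, hg x hx, add_zero]
  smul_mem' := fun c f hf x hx => by
    rw [Pi.smul_apply, hf x hx, smul_zero]

theorem mem_van {X : Type} {S : Set X} {f : X → ℂ} : f ∈ van S ↔ ∀ x ∈ S, f x = 0 := Iff.rfl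

theorem van_anti {X : Type} {S T : Set X} (h : S ⊆ T) : van T ≤ van S :=
  fun _ hf x hx => hf x (h hx)

end M4.F
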