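import Pool.Agent.Lib.MP_33b3f9_ag.M4.F.Defs
import Pool.Agent.Lib.MP_33b3f9_ag.M4.F.Van

/-!
Integral Faltings bound: the space of sections and the chain of lattices.
-/

set_option autoImplicit false

noncomputable section

namespace M4.F

open Matrix

variable {K : IntermediateField ℚ ℂ}

/-- The span of the level one sections with twists in the dual of `Λ`. -/
def GS (τ : Mat) (t : ℂ) (Λ : AddSubgroup (VQ ν)) : Submodule ℂ (VR ν → ℂ) :=
  Submodule.span ℂ ((fun c : VQ ν => Tw τ t (cr c)) '' (dual Λ : Set (VQ ν)))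

/-- The dimension of the space of the sections that vanish on `S`. -/
def kk (τ : Mat) (t : ℂ) (Λ : AddSubgroup (VQ ν)) (S : Set (VQ ν)) : ℕ :=
  Module.finrank ℂ ↥(GS τ t Λ ⊓ van (cr '' S))

/-- The columns of `R / n`. -/
def qq (n : ℕ) : MZ →+ VQ ν where
  toFun R := (n : ℚ)⁻¹ • col R
  map_zero' := by rw [map_zero, smul_zero]
  map_add' := fun R S => by rw [map_add, smul_add]

theorem qq_apply (n : ℕ) (R : MZ) : qq n R = (n : ℚ)⁻¹ • col R := rfl

/-- The lattice generated by the orbit of `1 / n`. -/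
def LL (r : Rep K) (U : Subgroup (ℂ ≃ₐ[K] ℂ)) (N n : ℕ) : AddSubgroup (VQ ν) :=
  (AA r U (n * N)).map (qq n)

/-- The union of `S` and `S + y`. -/
def ext (S : Set (VQ ν)) (y : VQ ν) : Set (VQ ν) := {z | z ∈ S ∨ ∃ x ∈ S, z = x + y}

/-- Stable unions of cosets. -/
structure Good (r : Rep K) (U : Subgroup (ℂ ≃ₐ[K] ℂ)) (N n : ℕ) (S : Set (VQ ν)) : Prop where
  inv : ∀ x ∈ S, ∀ l ∈ LL r U N n, x + l ∈ S
  stab : ∀ σ ∈ U, ∀ R, Cong r σ (2 * n * N) R → ∀ x ∈ S, mv R x ∈ S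

/-- A minor of the matrix of values. -/
def minor (τ : Mat) (t : ℂ) {p : ℕ} (c x : Fin p → VQ ν) : ℂ :=
  (Matrix.of fun i j => Tw τ t (cr (c j)) (cr (x i))).det

end M4.F
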