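import Pool.Agent.Lib.MP_33b3f9_ag.M4.F.Defs

/-!
Holomorphic functions on tuples along complex lines.
-/

set_option autoImplicit false

noncomputable section

namespace M4.F

open Matrix Filter

variable {κ : Type} [Fintype κ] {τ : Mat}

/-- Products over the members. -/
theorem holK_prod {e : ℝ} {f : κ → (ν → ℝ) → ℂ} (hf : ∀ i, f i ∈ Hol τ e) :
    (fun x : VR κ => ∏ i, f i (x i)) ∈ HolK τ e := by
  choose F hF hf using hf
  refine ⟨fun z => ∏ i, F i (z i), ?_, fun x => ?_⟩
  · classical
    induction (Finset.univ : Finset κ) using Finset.induction_on with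
    | empty => simp
    | insert a s ha ih =>
      simp only [Finset.prod_insert ha]
      have := hF a
      fun_prop
  · simp only [hf, Finset.prod_mul_distrib, ← ee_sum, Finset.mul_sum, Finset.sum_div]

theorem tw_hol (hτ : InH τ) (t : ℂ) (c : VR κ) : Tw τ t c ∈ HolK τ 1 :=
  holK_prod (f := fun i => t⁻¹ • U 1 (c i) (Th τ))
    (fun i => (Hol τ 1).smul_mem _ (Hol.U hτ.1 (Th_mem_Hol hτ) (c i))) |>
    Set.mem_of_eq_of_mem (funext fun x => Finset.prod_congr rfl fun i _ => by
      rw [Pi.smul_apply, smul_eq_mul, div_eq_inv_mul])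

theorem quad_bd {V : Type} [NormedAddCommGroup V] [NormedSpace ℝ V] [FiniteDimensional ℝ V]
    {h : V → ℝ} (hc : Continuous h) (hh : ∀ (t : ℝ) v, h (t • v) = t ^ 2 * h v) :
    ∃ c : ℝ, 0 < c ∧ ∀ v, h v ≤ c * ‖v‖ ^ 2 := by
  obtain ⟨c, hb⟩ := (isCompact_closedBall (0 : V) 1).exists_bound_of_continuousOn hc.continuousOn
  refine ⟨|c| + 1, by positivity, fun v => ?_⟩
  rcases eq_or_ne v 0 with rfl | hv
  · have := hh 0 0
    rw [smul_zero, zero_pow two_ne_zero, zero_mul] at this
    rw [this]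
    positivity
  · have hn : ‖v‖ ≠ 0 := norm_ne_zero_iff.2 hv
    have h1 := hb (‖v‖⁻¹ • v) (by simp [norm_smul, hn])
    have h2 := hh ‖v‖ (‖v‖⁻¹ • v)
    rw [smul_smul, mul_inv_cancel₀ hn, one_smul] at h2
    rw [h2, mul_comm]
    refine mul_le_mul_of_nonneg_right ?_ (sq_nonneg _)
    have := le_abs_self c
    have := (le_abs_self _).trans h1
    linarith

/-- The imaginary part of the exponent, as a bilinear form. -/
def bq (τ : Mat) (x y : VR κ) : ℝ := (∑ i, fa (x i) ⬝ᵥ per τ (y i)).im

theorem bq_add_left (x x' y : VR κ) : bq τ (x + x') y = bq τ x y + bq τ x' y := by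
  simp only [bq, Pi.add_apply, fa_add, add_dotProduct, Finset.sum_add_distrib, Complex.add_im]

theorem bq_add_right (x y y' : VR κ) : bq τ x (y + y') = bq τ x y + bq τ x y' := by
  simp only [bq, Pi.add_apply, per_add, dotProduct_add, Finset.sum_add_distrib, Complex.add_im]

theorem bq_smul_left (t : ℝ) (x y : VR κ) : bq τ (t • x) y = t * bq τ x y := by
  simp only [bq, Pi.smul_apply, fa_smul, smul_dotProduct, smul_eq_mul, ← Finset.mul_sum,
    Complex.im_ofReal_mul]

theorem bq_smul_right (t : ℝ) (x y : VR κ) : bq τ x (t • y) = t * bq τ x y := by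
  simp only [bq, Pi.smul_apply, per_smul, dotProduct_smul, smul_eq_mul, ← Finset.mul_sum,
    Complex.im_ofReal_mul]

theorem bq_nonneg (hτ : InH τ) (x : VR κ) : 0 ≤ bq τ x x := by
  rw [bq, Complex.im_sum]
  refine Finset.sum_nonneg fun i _ => ?_
  have h1 := hτ.2.posSemidef.dotProduct_mulVec_nonneg (x i ∘ Sum.inl)
  rw [← thid_im] at h1
  simpa [dotProduct, fa] using h1

theorem bq_cont : Continuous fun x : VR κ => bq τ x x :=
  Complex.continuous_im.comp (continuous_finsetSum _ fun i _ =>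
    (continuous_fa.comp (continuous_apply i)).dotProduct
      ((continuous_per τ).comp (continuous_apply i)))

omit [Fintype κ] in
theorem jv_smul (t : ℝ) (v : VR κ) : jv τ (t • v) = t • jv τ v := by
  funext i; simp [jv, mulVec_smul]

omit [Fintype κ] in
theorem jv_cont : Continuous (jv τ : VR κ → VR κ) :=
  continuous_pi fun i => continuous_const.matrix_mulVec (continuous_apply i)

theorem norm_ee (t : ℂ) : ‖ee t‖ = Real.exp (-(2 * Real.pi * t.im)) := by
  rw [ee, Complex.norm_exp]
  simp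

theorem HolK.continuous {e : ℝ} {s : VR κ → ℂ} (hs : s ∈ HolK τ e) : Continuous s := by
  obtain ⟨G, hG, hs⟩ := hs
  rw [funext hs]
  exact (differentiable_ee.continuous.comp ((continuous_const.mul (continuous_finsetSum _ fun i _ =>
    (continuous_fa.comp (continuous_apply i)).dotProduct
      ((continuous_per τ).comp (continuous_apply i)))).div_const _)).mul
    (hG.continuous.comp (continuous_pi fun i => (continuous_per τ).comp (continuous_apply i)))

/-- `per_cst`, `per_add`, `per_smul`: the periods of `x + re ζ • v + im ζ • jv v` are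
`per x + ζ • per v`. The norm of the factor is `exp (-π e Q (a₀ + re ζ • a + im ζ • a'))`, `Q` the
form of `im τ`; `Q (..) = h ‖ζ‖ ^ 2 + re (α ζ ^ 2 + β ζ + γ)`, `h = (Q a + Q a') / 2`. -/
theorem lin_of_holK (hτ : InH τ) (κ : Type) [Fintype κ] : ∃ c : ℝ, 0 < c ∧ ∀ e : ℝ, 0 ≤ e →
    ∀ s : VR κ → ℂ, s ∈ HolK τ e → Lin τ (c * e) s := by
  obtain ⟨c, hc, hb⟩ := quad_bd (h := fun v : VR κ => (bq τ v v + bq τ (jv τ v) (jv τ v)) / 2)
    ((bq_cont.add (bq_cont.comp jv_cont)).div_const _) (fun t v => by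
      simp only [jv_smul, bq_smul_left, bq_smul_right]
      ring)
  refine ⟨Real.pi * c, mul_pos Real.pi_pos hc, fun e he s hs => ⟨HolK.continuous hs, fun x v => ?_⟩⟩
  obtain ⟨G, hG, hs⟩ := hs
  set w := jv τ v with hw
  refine ⟨fun ζ => ee (e * ((bq τ x x : ℂ) * Complex.I +
      ζ * ((bq τ x w + bq τ w x : ℝ) + (bq τ x v + bq τ v x : ℝ) * Complex.I) +
      ζ ^ 2 * (((bq τ v w + bq τ w v) / 2 : ℝ) + ((bq τ v v - bq τ w w) / 2 : ℝ) * Complex.I)) / 2) *
      G (fun i => per τ (x i) + ζ • per τ (v i)),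
    Real.pi * e * ((bq τ v v + bq τ w w) / 2), ?_, ?_, ?_, fun ζ => ?_⟩
  · exact (differentiable_ee.comp (by fun_prop)).mul (hG.comp (by fun_prop))
  · have := bq_nonneg hτ v
    have := bq_nonneg hτ w
    have := Real.pi_pos
    positivity
  · have := mul_le_mul_of_nonneg_left (hb v) (mul_nonneg Real.pi_pos.le he)
    linarith
  · have h1 : (fun i => per τ ((x + ζ.re • v + ζ.im • w) i)) =
        fun i => per τ (x i) + ζ • per τ (v i) := by
      funext i
      simp only [Pi.add_apply, Pi.smul_apply, per_add, per_smul, hw, jv, per_cst hτ, smul_smul]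
      rw [add_assoc, ← add_smul, Complex.re_add_im]
    have h2 : (e * (∑ i, fa ((x + ζ.re • v + ζ.im • w) i) ⬝ᵥ
        per τ ((x + ζ.re • v + ζ.im • w) i)) / 2 : ℂ).im =
        e * bq τ (x + ζ.re • v + ζ.im • w) (x + ζ.re • v + ζ.im • w) / 2 := by
      rw [Complex.div_ofNat_im, Complex.im_ofReal_mul, bq]
    rw [hs, h1, norm_mul, norm_mul, norm_ee, norm_ee, h2, mul_right_comm _ ‖_‖, ← Real.exp_add,
      Complex.sq_norm, Complex.normSq_apply]
    congr 2
    simp only [bq_add_left, bq_add_right, bq_smul_left, bq_smul_right, Complex.div_ofNat_im,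
      Complex.add_im, Complex.mul_im, Complex.mul_re, Complex.add_re,
      Complex.ofReal_re, Complex.ofReal_im, Complex.I_re, Complex.I_im, pow_two]
    ring

end M4.F
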