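import Pool.Agent.Lib.MP_33b3f9_ag.M4.F.Van

/-!
Linear algebra of spaces of functions: minors, kernels, codimensions.
-/

set_option autoImplicit false

namespace M4.F

open Module Submodule

variable {X : Type}

/-- Independent functions on `T` have a non-zero minor: the evaluations at the points of `T` span
the dual. -/
theorem minor_of_indep {p : ℕ} (f : Fin p → X → ℂ) (T : Set X)
    (h : ∀ k : Fin p → ℂ, (∀ x ∈ T, ∑ j, k j * f j x = 0) → k = 0) :
    ∃ x : Fin p → X, (∀ i, x i ∈ T) ∧ (Matrix.of fun i j => f j (x i)).det ≠ 0 := by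
  have h2 : LinearIndependent ℂ fun j (x : T) => f j x :=
    Fintype.linearIndependent_iff.2 fun k hk => congrFun (h k fun x hx => by
      simpa using congrFun hk ⟨x, hx⟩)
  have h3 := span_flip_eq_top_iff_linearIndependent.2 h2
  obtain ⟨v, h4, -, h5⟩ := exists_fun_fin_finrank_span_eq ℂ (Set.range (flip fun j (x : T) => f j x))
  choose x hx using h4
  have e : p = finrank ℂ (span ℂ (Set.range (flip fun j (x : T) => f j x))) := by
    rw [h3, finrank_top, finrank_fintype_fun_eq_card, Fintype.card_fin]
  refine ⟨fun b => x (Fin.cast e b), fun b => (x _).2, ?_⟩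
  refine ((Matrix.isUnit_iff_isUnit_det _).1
    (Matrix.linearIndependent_rows_iff_isUnit.1 ?_)).ne_zero
  have h6 := h5.comp _ (Fin.cast_injective e)
  rwa [← funext hx] at h6

/-- Restrict to `T`: the image of the span has dimension `p` (rank and nullity), choose a basis
among the restrictions of the `v c`, then `minor_of_indep`. -/
theorem exists_minor {κ : Type} (v : κ → X → ℂ) (C : Set κ) (T : Set X)
    [Module.Finite ℂ (span ℂ (v '' C))] {p : ℕ}
    (hp : p + finrank ℂ ↥(span ℂ (v '' C) ⊓ van T) = finrank ℂ (span ℂ (v '' C))) :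
    ∃ (c : Fin p → κ) (x : Fin p → X), (∀ j, c j ∈ C) ∧ (∀ i, x i ∈ T) ∧
      (Matrix.of fun i j => v (c j) (x i)).det ≠ 0 := by
  set ρ : (X → ℂ) →ₗ[ℂ] (T → ℂ) := LinearMap.funLeft ℂ ℂ Subtype.val with hρ
  have h0 : LinearMap.ker ρ = van T := by
    ext f
    exact ⟨fun h x hx => congrFun h ⟨x, hx⟩, fun h => funext fun x => h x x.2⟩
  have h1 := (ρ.domRestrict (span ℂ (v '' C))).finrank_range_add_finrank_ker
  rw [LinearMap.range_domRestrict, LinearMap.ker_domRestrict, h0,
    ← finrank_map_subtype_eq _ (comap _ _), map_comap_subtype, map_span] at h1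
  have : Module.Finite ℂ (span ℂ (ρ '' (v '' C))) := by
    rw [← map_span]
    infer_instance
  obtain rfl : p = finrank ℂ (span ℂ (ρ '' (v '' C))) := by omega
  obtain ⟨f, h2, -, h3⟩ := exists_fun_fin_finrank_span_eq ℂ (ρ '' (v '' C))
  simp only [Set.image_image, Set.mem_image] at h2
  choose c hc hf using h2
  obtain ⟨x, hx⟩ := minor_of_indep (fun j => v (c j)) T fun k hk => funext
    (Fintype.linearIndependent_iff.1 h3 k (funext fun x => by
      simpa [← hf, hρ, LinearMap.funLeft_apply] using hk x x.2))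
  exact ⟨c, x, hc, hx⟩

end M4.F
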