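import Pool.Agent.Lib.MP_33b3f9_ag.M4.DetB
import Pool.Agent.Lib.MP_33b3f9_ag.M4.F.Defs

/-!
The inequality of Liouville.
-/

set_option autoImplicit false

noncomputable section

namespace M4.F

open Matrix Filter

variable {K : IntermediateField ℚ ℂ}

theorem cosets [FiniteDimensional ℚ K] (H : Subgroup (ℂ ≃ₐ[K] ℂ)) [H.FiniteIndex] :
    ∃ T : Finset (ℂ ≃+* ℂ), T.card ≤ Module.finrank ℚ K * H.index ∧
      ∀ φ : ℂ ≃+* ℂ, ∃ g ∈ T, ∃ σ ∈ H, ∀ z, φ z = g (σ z) := by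
  classical
  choose g hg using fun e : K →ₐ[ℚ] ℂ => Pool.Agent.M4.Det.exists_ext K e.toRingHom
  have := Fintype.ofFinite ((ℂ ≃ₐ[K] ℂ) ⧸ H)
  refine ⟨Finset.univ.image fun p : (K →ₐ[ℚ] ℂ) × ((ℂ ≃ₐ[K] ℂ) ⧸ H) =>
    p.2.out.toRingEquiv.trans (g p.1), ?_, fun φ => ?_⟩
  · refine Finset.card_image_le.trans ?_
    rw [Finset.card_univ, Fintype.card_prod, AlgHom.card, Subgroup.index_eq_card,
      Nat.card_eq_fintype_card]
  · let e : K →ₐ[ℚ] ℂ := (φ.toRingHom.comp (algebraMap K ℂ)).toRatAlgHom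
    let ρ : ℂ ≃ₐ[K] ℂ := AlgEquiv.ofRingEquiv (f := φ.trans (g e).symm) fun a => by
      rw [RingEquiv.trans_apply, RingEquiv.symm_apply_eq]
      exact (hg e a).symm
    refine ⟨_, Finset.mem_image_of_mem _ (Finset.mem_univ (e, QuotientGroup.mk ρ)),
      (QuotientGroup.mk ρ : (ℂ ≃ₐ[K] ℂ) ⧸ H).out⁻¹ * ρ,
      QuotientGroup.eq.1 (QuotientGroup.out_eq' _), fun z => ?_⟩
    change φ z = g e (((QuotientGroup.mk ρ : (ℂ ≃ₐ[K] ℂ) ⧸ H).out *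
      ((QuotientGroup.mk ρ : (ℂ ≃ₐ[K] ℂ) ⧸ H).out⁻¹ * ρ)) z)
    rw [mul_inv_cancel_left]
    exact ((g e).apply_symm_apply (φ z)).symm

theorem liouville [FiniteDimensional ℚ K] (H : Subgroup (ℂ ≃ₐ[K] ℂ)) [H.FiniteIndex] {α : ℂ}
    (hi : IsIntegral ℤ α) {B ε : ℝ} (hB : 1 ≤ B) (hb : ∀ φ : ℂ ≃+* ℂ, ‖φ α‖ ≤ B)
    (hε : ∀ σ ∈ H, ‖σ α‖ ≤ ε) {δ : ℕ} (hδ : Module.finrank ℚ K * H.index ≤ δ)
    (h : ε * B ^ δ < 1) : α = 0 := by
  classical
  by_contra h0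
  obtain ⟨T, hT, hφ⟩ := cosets H
  let L : IntermediateField ℚ ℂ := IntermediateField.adjoin ℚ {α}
  have : FiniteDimensional ℚ L := IntermediateField.adjoin.finiteDimensional hi.tower_top
  let x : L := ⟨α, IntermediateField.mem_adjoin_simple_self ℚ α⟩
  have hx : IsIntegral ℤ x := (isIntegral_algHom_iff (L.val.restrictScalars ℤ)
    L.val.injective).1 hi
  obtain ⟨n, hn⟩ := IsIntegrallyClosed.isIntegral_iff.1 (Algebra.isIntegral_norm ℚ hx)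
  have hp := Algebra.norm_eq_prod_embeddings ℚ ℂ x
  rw [← hn] at hp
  have hp' : (n : ℂ) = ∏ e : L →ₐ[ℚ] ℂ, e x := by simpa using hp
  have hn0 : n ≠ 0 := fun h1 => by
    rw [h1, Int.cast_zero, eq_comm, Finset.prod_eq_zero_iff] at hp'
    obtain ⟨e, -, he⟩ := hp'
    exact h0 (congrArg Subtype.val ((map_eq_zero e).1 he))
  have h1 : (1 : ℝ) ≤ ∏ e : L →ₐ[ℚ] ℂ, ‖e x‖ := by
    rw [← norm_prod, ← hp', Complex.norm_intCast]
    exact_mod_cast Int.one_le_abs hn0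
  let A : Finset (L →ₐ[ℚ] ℂ) := Finset.univ.filter fun e => ∃ σ ∈ H, ∀ y : L, e y = σ y
  have hA : A.card ≠ 0 := Finset.card_ne_zero.2
    ⟨L.val, Finset.mem_filter.2 ⟨Finset.mem_univ _, 1, H.one_mem, fun _ => rfl⟩⟩
  have hS : (Finset.univ : Finset (L →ₐ[ℚ] ℂ)).card ≤ δ * A.card := by
    refine le_trans ?_ (Nat.mul_le_mul_right _ (hT.trans hδ))
    rw [← Finset.card_product]
    refine Finset.card_le_card_of_surjOn
      (fun p => (p.1.toRingHom.comp p.2.toRingHom).toRatAlgHom) fun e _ => ?_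
    obtain ⟨φ, h2⟩ := Pool.Agent.M4.Det.exists_ext L e.toRingHom
    obtain ⟨g, hg, σ, hσ, h3⟩ := hφ φ
    refine ⟨(g, (σ.toRingEquiv.toRingHom.comp (algebraMap L ℂ)).toRatAlgHom), ?_,
      AlgHom.ext fun y => ((h2 y).symm.trans (h3 y)).symm⟩
    exact Finset.mem_coe.2 (Finset.mem_product.2
      ⟨hg, Finset.mem_filter.2 ⟨Finset.mem_univ _, σ, hσ, fun _ => rfl⟩⟩)
  have hε0 : 0 ≤ ε := (norm_nonneg _).trans (hε 1 H.one_mem)
  have h2 : ∏ e ∈ A, ‖e x‖ ≤ ε ^ A.card := by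
    rw [← Finset.prod_const]
    refine Finset.prod_le_prod (fun _ _ => norm_nonneg _) fun e he => ?_
    obtain ⟨σ, hσ, h3⟩ := (Finset.mem_filter.1 he).2
    rw [h3]
    exact hε σ hσ
  have h3 : ∏ e ∈ Aᶜ, ‖e x‖ ≤ B ^ (δ * A.card) := by
    refine le_trans ?_ (pow_le_pow_right₀ hB ((Finset.card_le_univ Aᶜ).trans hS))
    rw [← Finset.prod_const]
    refine Finset.prod_le_prod (fun _ _ => norm_nonneg _) fun e _ => ?_
    obtain ⟨φ, h4⟩ := Pool.Agent.M4.Det.exists_ext L e.toRingHom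
    exact (congrArg norm (h4 x)).symm.le.trans (hb φ)
  rw [← Finset.prod_mul_prod_compl A] at h1
  have h4 := h1.trans (mul_le_mul h2 h3 (Finset.prod_nonneg fun _ _ => norm_nonneg _)
    (pow_nonneg hε0 _))
  rw [pow_mul, ← mul_pow] at h4
  exact absurd (pow_lt_one₀ (by positivity) h hA) (not_lt.2 h4)

end M4.F
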